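import Pool.Agent.J4.H95.RS.Bri
import Pool.Agent.J4.H93.RZ.Sc

/-!
# Project RS: assembly
-/

set_option autoImplicit false

open MeasureTheory Set Filter Topology

namespace Pool.Agent.J4.H95.RS

open Pool.Agent.TH478.CE Pool.Agent.J4.H93.NS Pool.Agent.J4.H93.RZ

/-- the points of a configuration are pairwise distinct modulo the lattice `V` -/
def Dist {ι : Type} (x : ι → P) : Prop := ∀ i j : ι, i ≠ j → ∀ m : ℤ × ℤ, x i - x j + hexPt m ≠ 0

/-- the constant in the kernel -/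
noncomputable def kap (s : ℝ) : ℝ := 2 * Real.pi / (Real.Gamma (s / 2) * (s - 2))

namespace Asm

variable {ι : Type} [Fintype ι] [DecidableEq ι]

theorem pair_const (c : ℝ) : ∑ i : ι, ∑ j : ι, (if i = j then 0 else c) =
    (Fintype.card ι : ℝ) * ((Fintype.card ι : ℝ) - 1) * c := by
  have h1 : ∀ i : ι, ∑ j : ι, (if i = j then 0 else c) = ((Fintype.card ι : ℝ) - 1) * c := by
    intro i
    have h2 : ∀ j : ι, (if i = j then 0 else c) = c - (if i = j then c else 0) := by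
      intro j
      split_ifs <;> simp
    rw [Finset.sum_congr rfl fun j _ => h2 j, Finset.sum_sub_distrib, Finset.sum_ite_eq,
      if_pos (Finset.mem_univ _), Finset.sum_const, Finset.card_univ, nsmul_eq_mul]
    ring
  rw [Finset.sum_congr rfl fun i _ => h1 i, Finset.sum_const, Finset.card_univ, nsmul_eq_mul]
  ring

theorem Ep_sum (hK : S_KER) {s : ℝ} (hs : 2 < s) {x : ι → P} (hx : Dist x) :
    Ep s x = Sr s x - (Fintype.card ι : ℝ) * ((Fintype.card ι : ℝ) - 1) * kap s := by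
  rw [← pair_const]
  unfold Ep Sr
  rw [← Finset.sum_sub_distrib]
  refine Finset.sum_congr rfl fun i _ => ?_
  rw [← Finset.sum_sub_distrib]
  refine Finset.sum_congr rfl fun j _ => ?_
  split_ifs with h
  · simp
  · rw [hK s hs _ (hx i j h)]
    rfl

theorem rpow_sq {m : ℕ} {s : ℝ} : (((m ^ 2 : ℕ) : ℝ)) ^ (s / 2) = (m : ℝ) ^ s := by
  push_cast
  rw [← Real.rpow_natCast (m : ℝ) 2, ← Real.rpow_mul (Nat.cast_nonneg m)]
  congr 1
  push_cast
  ring

/-- the energy of the configuration `(1/m) V ∩ Ω` -/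
theorem Ep_star (hK : S_KER) (hST : S_STA) {s : ℝ} (hs : 2 < s) {m : ℕ} (hm : 0 < m) :
    Ep s (star m) = (m : ℝ) ^ 2 * ((m : ℝ) ^ s * Zt s) - (m : ℝ) ^ 2 * Zt s -
      (m : ℝ) ^ 2 * ((m : ℝ) ^ 2 - 1) * kap s := by
  rw [Ep_sum hK hs (fun i j h k => star_ne m hm i j h k)]
  have h1 := hST s hs m hm
  have h2 : (Fintype.card (Fin m × Fin m) : ℝ) = (m : ℝ) ^ 2 := by
    rw [Fintype.card_prod, Fintype.card_fin]
    push_cast
    ring
  rw [h2]
  linarith

/-- the lower bound for the energy of `N` points -/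
theorem Ep_lower (hK : S_KER) (hC : S_CF2) {s : ℝ} (hs : 2 < s) (hst : Steep s) {N : ℕ}
    (hN : 0 < N) {x : Fin N → P} (hx : Dist x) :
    (N : ℝ) * ((N : ℝ) ^ (s / 2) * Zt s) - N * Zt s - N * (N - 1) * kap s ≤ Ep s x := by
  rw [Ep_sum hK hs hx, Fintype.card_fin]
  have := hC s hs hst N hN x hx
  linarith

theorem opt (hK : S_KER) (hST : S_STA) (hC : S_CF2) {s : ℝ} (hs : 2 < s) (hst : Steep s) {m : ℕ}
    (hm : 0 < m) {x : Fin (m ^ 2) → P} (hx : Dist x) : Ep s (star m) ≤ Ep s x := by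
  have h1 := Ep_lower hK hC hs hst (pow_pos hm 2) hx
  rw [rpow_sq] at h1
  rw [Ep_star hK hST hs hm]
  push_cast at h1
  exact h1

end Asm

end Pool.Agent.J4.H95.RS
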