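import Pool.Agent.J4.H95.RS.Defs
import Pool.Agent.J4.H83.SG.FinalG
import Pool.Agent.J4.H93.RZ.CF

/-!
# Project RS, piece BRI: from the theorem on steep potentials to Riesz energies
-/

set_option autoImplicit false

open MeasureTheory Set

namespace Pool.Agent.J4.H95.RS

open Pool.Agent.TH478.CE Pool.Agent.J4.H93.NS Pool.Agent.J4.H93.RZ

namespace Bri

/-- the plane as the complex numbers -/
def tc (x : P) : ℂ := ⟨x 0, x 1⟩

theorem tc_re (x : P) : (tc x).re = x 0 := rfl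

theorem tc_im (x : P) : (tc x).im = x 1 := rfl

theorem tc_norm (x : P) : ‖tc x‖ = ‖x‖ := by
  rw [Complex.norm_def, Complex.normSq_apply, tc_re, tc_im, EuclideanSpace.norm_eq,
    Fin.sum_univ_two, Real.norm_eq_abs, Real.norm_eq_abs, sq_abs, sq_abs]
  congr 1
  ring

theorem tc_eq_zero {x : P} : tc x = 0 ↔ x = 0 := by
  rw [← norm_eq_zero, tc_norm, norm_eq_zero]

theorem tc_sub (x y : P) : tc (x - y) = tc x - tc y := by
  apply Complex.ext <;> simp [tc]

theorem tc_add (x y : P) : tc (x + y) = tc x + tc y := by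
  apply Complex.ext <;> simp [tc]

theorem tc_lat (a b : P) (m : ℤ × ℤ) : tc (latPt a b m) = m.1 * tc a + m.2 * tc b := by
  apply Complex.ext <;> simp [tc, latPt]

theorem tc_hex (m : ℤ × ℤ) : tc (hexPt m) = m.1 * ((Pool.Agent.J4.H83.SG.spc : ℝ) : ℂ) +
    m.2 * (⟨Pool.Agent.J4.H83.SG.spc / 2, Pool.Agent.J4.H83.SG.spc * √3 / 2⟩ : ℂ) := by
  apply Complex.ext
  · simp [tc, hexPt, Pool.Agent.J4.H83.SG.spc]
    ring
  · simp [tc, hexPt, Pool.Agent.J4.H83.SG.spc]
    ring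

/-- the potential `r ^ (-s)` -/
noncomputable def rp (s : ℝ) (r : ℝ) : ENNReal := ENNReal.ofReal (r ^ (-s))

/-- the potential as a function of the square of the distance -/
noncomputable def rf (s : ℝ) (y : ℝ) : ℝ := y ^ (-(s / 2))

theorem pot_eq (s : ℝ) {r : ℝ} (hr : 0 ≤ r) : Pool.Agent.J4.H83.SG.pot (rf s) r = rp s r := by
  unfold Pool.Agent.J4.H83.SG.pot rf rp
  congr 1
  rw [← Real.rpow_natCast r 2, ← Real.rpow_mul hr]
  congr 1
  push_cast
  ring

theorem lat_tc {a b : P} {N : ℕ} (x : Fin N → P) (j k : Fin N) (q : ℤ × ℤ) :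
    tc (x j) - tc (x k) + (q.1 * tc a + q.2 * tc b) = tc (x j - x k + latPt a b q) := by
  rw [tc_add, tc_sub, tc_lat]

theorem isConf {a b : P} {N : ℕ} {x : Fin N → P} (h : IsConf a b N x) :
    Pool.Agent.J4.H83.SG.IsConf (tc a) (tc b) (fun j => tc (x j)) where
  pos := h.pos
  covol := by
    have := h.density
    unfold covol at this
    rw [this]
    rfl
  distinct := by
    intro j k hjk m n h0
    have h1 : tc (x j - x k + latPt a b (m, n)) = 0 := by
      rw [← lat_tc]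
      exact h0
    exact hjk (h.distinct j k (m, n) (tc_eq_zero.mp h1)).1

theorem energy_tc (s : ℝ) (a b : P) (N : ℕ) (x : Fin N → P) :
    Pool.Agent.J4.H83.SG.energy (Pool.Agent.J4.H83.SG.pot (rf s)) (tc a) (tc b)
      (fun j => tc (x j)) = energy (fun r => ENNReal.ofReal (r ^ (-s))) a b N x := by
  unfold Pool.Agent.J4.H83.SG.energy energy
  rw [div_eq_mul_inv, mul_comm]
  congr 1
  refine Finset.sum_congr rfl fun j _ => Finset.sum_congr rfl fun k _ => tsum_congr fun q => ?_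
  rw [lat_tc]
  by_cases h0 : x j - x k + latPt a b q = 0
  · rw [if_pos (tc_eq_zero.mpr h0), if_pos h0]
  · rw [if_neg (fun h => h0 (tc_eq_zero.mp h)), if_neg h0, tc_norm, pot_eq s (norm_nonneg _)]
    rfl

theorem hexPt_zero : hexPt 0 = 0 := by
  ext i
  fin_cases i <;> simp [hexPt]

theorem hex_tc (s : ℝ) (hne : ∀ m : ℤ × ℤ, m ≠ 0 → hexPt m ≠ 0) :
    Pool.Agent.J4.H83.SG.hexEnergy (Pool.Agent.J4.H83.SG.pot (rf s)) =
      energyHex (fun r => ENNReal.ofReal (r ^ (-s))) := by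
  classical
  unfold Pool.Agent.J4.H83.SG.hexEnergy Pool.Agent.J4.H83.SG.energy energyHex
  simp only [Finset.univ_unique, Finset.sum_const, Finset.card_singleton, one_smul, sub_self,
    zero_add, Nat.cast_one, div_one]
  have h1 : ∀ q : ℤ × ℤ, (if (q.1 : ℂ) * ((Pool.Agent.J4.H83.SG.spc : ℝ) : ℂ) +
      (q.2 : ℂ) * (⟨Pool.Agent.J4.H83.SG.spc / 2, Pool.Agent.J4.H83.SG.spc * √3 / 2⟩ : ℂ) = 0 then 0
      else Pool.Agent.J4.H83.SG.pot (rf s) ‖(q.1 : ℂ) * ((Pool.Agent.J4.H83.SG.spc : ℝ) : ℂ) +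
      (q.2 : ℂ) * (⟨Pool.Agent.J4.H83.SG.spc / 2, Pool.Agent.J4.H83.SG.spc * √3 / 2⟩ : ℂ)‖) =
      ({m : ℤ × ℤ | m ≠ 0}.indicator (fun m => rp s ‖hexPt m‖)) q := by
    intro q
    rw [← tc_hex, tc_norm, pot_eq s (norm_nonneg _)]
    by_cases hq : q = 0
    · subst hq
      rw [if_pos (by rw [hexPt_zero]; exact tc_eq_zero.mpr rfl), Set.indicator_of_notMem]
      simp
    · rw [if_neg (fun h => hne q hq (tc_eq_zero.mp h)), Set.indicator_of_mem]
      exact hq
  rw [tsum_congr h1, ← tsum_subtype]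
  rfl

theorem conv {s : ℝ} (hs : 0 < s) :
    ConvexOn ℝ (Ioi 0) (fun y => Real.log (rf s y)) := by
  have h1 : ConvexOn ℝ (Ioi 0) (fun y => (s / 2) • (-Real.log y)) :=
    (strictConcaveOn_log_Ioi.concaveOn.neg).smul (by positivity)
  refine h1.congr ?_
  intro y hy
  have hy' : 0 < y := hy
  simp only [rf]
  rw [Real.log_rpow hy', smul_eq_mul]
  ring

theorem anti {s B : ℝ} (hs : 2 * B ≤ s) (hB : 0 < B) :
    AntitoneOn (fun y => y ^ B * rf s y) (Ici (Pool.Agent.J4.H83.SG.spc ^ 2)) := by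
  have hspc : 0 < Pool.Agent.J4.H83.SG.spc := by
    unfold Pool.Agent.J4.H83.SG.spc
    positivity
  intro y hy z hz hyz
  have hy0 : 0 < y := lt_of_lt_of_le (by positivity) (mem_Ici.mp hy)
  have hz0 : 0 < z := lt_of_lt_of_le hy0 hyz
  simp only [rf]
  rw [← Real.rpow_add hy0, ← Real.rpow_add hz0]
  exact Real.rpow_le_rpow_of_nonpos hy0 hyz (by linarith)

end Bri

open Bri in
/-- there is `s₀ > 2` such that for `s ≥ s₀` the hexagonal lattice is the unique minimiser of the Riesz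
`s`-energy among all periodic configurations of density one -/
theorem bri : ∃ s₀ : ℝ, 2 < s₀ ∧ ∀ s : ℝ, s₀ ≤ s → ∀ (a b : P) (N : ℕ) (x : Fin N → P),
    IsConf a b N x →
    energyHex (fun r => ENNReal.ofReal (r ^ (-s))) ≤
      energy (fun r => ENNReal.ofReal (r ^ (-s))) a b N x ∧
    (energy (fun r => ENNReal.ofReal (r ^ (-s))) a b N x =
      energyHex (fun r => ENNReal.ofReal (r ^ (-s))) →
      Pool.Agent.J4.H83.SG.IsHex
        (Pool.Agent.J4.H83.SG.points (tc a) (tc b) (fun j => tc (x j)))) := by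
  obtain ⟨B, hB, h⟩ := Pool.Agent.J4.H83.SG.steep
  refine ⟨2 * B + 1, by linarith, fun s hs a b N x hx => ?_⟩
  have hs0 : 0 < s := by linarith
  have h1 := h (rf s) (fun y hy => Real.rpow_pos_of_pos hy _) (conv hs0)
    (anti (by linarith) (by linarith)) N (tc a) (tc b) (fun j => tc (x j)) (isConf hx)
  rw [energy_tc, hex_tc s (fun m hm => CF.hex_ne hm)] at h1
  exact h1

theorem steep_of_bri : ∃ s₀ : ℝ, 2 < s₀ ∧ ∀ s : ℝ, s₀ ≤ s → Steep s := by
  obtain ⟨s₀, h1, h2⟩ := bri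
  exact ⟨s₀, h1, fun s hs a b N x hx => (h2 s hs a b N x hx).1⟩

end Pool.Agent.J4.H95.RS
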