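import Pool.Agent.J4.H95.RS.Defs
import Pool.Agent.J4.H93.RZ.Up

/-!
# Project RS, piece CC: `C_{s,2} = ζ_V(s)` for steep energies
-/

set_option autoImplicit false

open MeasureTheory Set Filter Topology

namespace Pool.Agent.J4.H95.RS

open Pool.Agent.TH478.CE Pool.Agent.J4.H93.NS Pool.Agent.J4.H93.RZ Pool.Agent.J4.H93.RZ.CubeAux

namespace CC

theorem cube_ge_of {s δ K : ℝ} (hs : 2 < s) (hδ : 0 < δ) (hK0 : 0 ≤ K)
    (hK : ∀ (a b : P) (N : ℕ) (x : Fin N → P), IsConf a b N x →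
      ENNReal.ofReal K ≤ energy (fun r => ENNReal.ofReal (r ^ (-s))) a b N x)
    {N : ℕ} (hN : 0 < N) {x : Fin N → P}
    (hx : Function.Injective x) (hS : ∀ i, x i ∈ Sq) :
    (N : ℝ) ^ (1 + s / 2) * ((1 + δ) ^ (-s) * K) -
      (N : ℝ) ^ 2 * (δ ^ (-s) * ∑' m : ℤ × ℤ, sn m ^ (-s)) ≤ Er s x := by
  have hN' : (0 : ℝ) < N := by exact_mod_cast hN
  have hl : 0 < √(N : ℝ) / (1 + δ) := by positivity
  set B : ℝ := δ ^ (-s) * ∑' m : ℤ × ℤ, sn m ^ (-s) with hB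
  have hB0 : 0 ≤ B := mul_nonneg (by positivity) (tsum_nonneg fun m =>
      Real.rpow_nonneg (sn_nonneg m) _)
  have h1 := hK _ _ _ _ (isConf_sq hN hδ hx hS)
  have h2 : energy (fun r => ENNReal.ofReal (r ^ (-s))) (!₂[√N, 0] : P) !₂[0, √N] N
      (fun i => (√N / (1 + δ)) • x i) ≤
      (N : ENNReal)⁻¹ * ENNReal.ofReal ((√N / (1 + δ)) ^ (-s) * (Er s x + (N : ℝ) ^ 2 * B)) := by
    unfold energy
    gcongr
    have h3 : ∑ j : Fin N, ∑ k : Fin N, ENNReal.ofReal ((√N / (1 + δ)) ^ (-s) *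
        ((if j = k then 0 else ‖x j - x k‖ ^ (-s)) + B)) =
        ENNReal.ofReal ((√N / (1 + δ)) ^ (-s) * (Er s x + (N : ℝ) ^ 2 * B)) := by
      have hnn : ∀ j k : Fin N, 0 ≤ (√N / (1 + δ)) ^ (-s) *
          ((if j = k then 0 else ‖x j - x k‖ ^ (-s)) + B) := by
        intro j k
        apply mul_nonneg (by positivity) (add_nonneg _ hB0)
        split_ifs
        · exact le_rfl
        · positivity
      rw [Finset.sum_congr rfl fun j _ => (ENNReal.ofReal_sum_of_nonneg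
        (fun k _ => hnn j k)).symm, ← ENNReal.ofReal_sum_of_nonneg
        (fun j _ => Finset.sum_nonneg fun k _ => hnn j k)]
      congr 1
      unfold Er
      simp only [← Finset.mul_sum, Finset.sum_add_distrib, Finset.sum_const, Finset.card_univ,
        Fintype.card_fin, nsmul_eq_mul]
      ring
    rw [← h3]
    exact Finset.sum_le_sum fun j _ => Finset.sum_le_sum fun k _ => by
      convert inner_le hs hδ hN hx hS j k
  have h4 := h1.trans h2
  have h5 : (N : ENNReal)⁻¹ * ENNReal.ofReal ((√N / (1 + δ)) ^ (-s) *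
      (Er s x + (N : ℝ) ^ 2 * B)) ≠ ⊤ := by
    apply ENNReal.mul_ne_top _ ENNReal.ofReal_ne_top
    simp [hN.ne']
  have h6 := ENNReal.toReal_mono h5 h4
  have hEr : 0 ≤ Er s x := by
    unfold Er
    apply Finset.sum_nonneg fun j _ => Finset.sum_nonneg fun k _ => ?_
    split_ifs
    · exact le_rfl
    · positivity
  rw [ENNReal.toReal_mul, ENNReal.toReal_ofReal hK0, ENNReal.toReal_inv,
    ENNReal.toReal_natCast, ENNReal.toReal_ofReal (by positivity)] at h6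
  have h8 : (√(N : ℝ) / (1 + δ)) ^ s * (N * K) ≤ Er s x + (N : ℝ) ^ 2 * B := by
    have h9 : (√(N : ℝ) / (1 + δ)) ^ s * (N * K) ≤
        (√(N : ℝ) / (1 + δ)) ^ s * (N * ((N : ℝ)⁻¹ * ((√N / (1 + δ)) ^ (-s) *
          (Er s x + (N : ℝ) ^ 2 * B)))) := by
      gcongr
    refine h9.trans (le_of_eq ?_)
    rw [Real.rpow_neg hl.le]
    have h10 : (√(N : ℝ) / (1 + δ)) ^ s ≠ 0 := (Real.rpow_pos_of_pos hl s).ne'
    field_simp
  have h11 : (√(N : ℝ) / (1 + δ)) ^ s = (N : ℝ) ^ (s / 2) * (1 + δ) ^ (-s) := by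
    rw [Real.div_rpow (Real.sqrt_nonneg _) (by positivity), Real.sqrt_eq_rpow,
      ← Real.rpow_mul hN'.le, Real.rpow_neg (by positivity), div_eq_mul_inv]
    congr 2
    ring
  rw [h11] at h8
  rw [Real.rpow_add hN', Real.rpow_one]
  have e : (N : ℝ) * (N : ℝ) ^ (s / 2) * ((1 + δ) ^ (-s) * K) =
      (N : ℝ) ^ (s / 2) * (1 + δ) ^ (-s) * (N * K) := by ring
  rw [e]
  linarith

theorem Emin_ge_of {s δ K : ℝ} (hs : 2 < s) (hδ : 0 < δ) (hK0 : 0 ≤ K)
    (hK : ∀ (a b : P) (N : ℕ) (x : Fin N → P), IsConf a b N x →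
      ENNReal.ofReal K ≤ energy (fun r => ENNReal.ofReal (r ^ (-s))) a b N x)
    {N : ℕ} (hN : 0 < N) :
    (1 + δ) ^ (-s) * K -
      (δ ^ (-s) * ∑' m : ℤ × ℤ, sn m ^ (-s)) * (N : ℝ) ^ (-(s / 2 - 1)) ≤
      Emin s N / (N : ℝ) ^ (1 + s / 2) := by
  have hN' : (0 : ℝ) < N := by exact_mod_cast hN
  have h1 : (N : ℝ) ^ (1 + s / 2) * ((1 + δ) ^ (-s) * K) -
      (N : ℝ) ^ 2 * (δ ^ (-s) * ∑' m : ℤ × ℤ, sn m ^ (-s)) ≤ Emin s N := by
    apply le_csInf (Emin_set_nonempty s N)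
    rintro E ⟨x, hx, hS, rfl⟩
    exact cube_ge_of hs hδ hK0 hK hN hx hS
  rw [le_div_iff₀ (by positivity)]
  refine le_trans (le_of_eq ?_) h1
  have h2 : (N : ℝ) ^ (-(s / 2 - 1)) * (N : ℝ) ^ (1 + s / 2) = (N : ℝ) ^ 2 := by
    rw [← Real.rpow_add hN', ← Real.rpow_natCast]
    congr 1
    push_cast
    ring
  rw [sub_mul, mul_assoc _ ((N : ℝ) ^ (-(s / 2 - 1))), h2]
  ring

theorem Zt_eq_Zh (s : ℝ) : Zt s = Zh s := by
  rw [Up.Zh_eq]
  unfold Zt
  apply tsum_congr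
  intro m
  rw [← Real.rpow_natCast ‖hexPt m.1‖ 2, ← Real.rpow_mul (norm_nonneg _)]
  congr 1
  push_cast
  ring

theorem summable_Zt {s : ℝ} (hs : 2 < s) :
    Summable (fun m : {m : ℤ × ℤ // m ≠ 0} => ‖hexPt m.1‖ ^ (-s)) := by
  refine (summable_hexPt hs).congr fun m => ?_
  rw [← Real.rpow_natCast ‖hexPt m.1‖ 2, ← Real.rpow_mul (norm_nonneg _)]
  congr 1
  push_cast
  ring

theorem Zt_nonneg (s : ℝ) : 0 ≤ Zt s := tsum_nonneg fun m => by positivity

theorem energyHex_eq {s : ℝ} (hs : 2 < s) :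
    energyHex (fun r => ENNReal.ofReal (r ^ (-s))) = ENNReal.ofReal (Zt s) := by
  unfold energyHex Zt
  rw [ENNReal.ofReal_tsum_of_nonneg (fun m => by positivity) (summable_Zt hs)]

end CC

open CC

/-- `C_{s,2} = ζ_V(s)`, the limit exists -/
theorem tendsto_Emin {s : ℝ} (hs : 2 < s) (h : Steep s) :
    Tendsto (fun N : ℕ => Emin s N / (N : ℝ) ^ (1 + s / 2)) atTop (𝓝 (Zt s)) := by
  have hK : ∀ (a b : P) (N : ℕ) (x : Fin N → P), IsConf a b N x →
      ENNReal.ofReal (Zt s) ≤ energy (fun r => ENNReal.ofReal (r ^ (-s))) a b N x := by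
    intro a b N x hc
    rw [← energyHex_eq hs]
    exact h a b N x hc
  rw [tendsto_order]
  constructor
  · intro c hc
    -- choose `δ`
    have h3 : Tendsto (fun δ : ℝ => (1 + δ) ^ (-s) * Zt s) (𝓝[>] 0)
        (𝓝 ((1 + 0) ^ (-s) * Zt s)) := by
      apply tendsto_nhdsWithin_of_tendsto_nhds
      have hc : ContinuousAt (fun δ : ℝ => (1 + δ) ^ (-s) * Zt s) 0 := by
        apply ContinuousAt.mul _ continuousAt_const
        apply ContinuousAt.rpow_const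
        · fun_prop
        · left
          norm_num
      exact hc.tendsto
    rw [add_zero, Real.one_rpow, one_mul] at h3
    obtain ⟨δ, hδ1, hδ0⟩ := ((h3.eventually_const_lt hc).and self_mem_nhdsWithin).exists
    have hδ0' : (0 : ℝ) < δ := hδ0
    have h2 : Tendsto (fun N : ℕ => (1 + δ) ^ (-s) * Zt s -
      (δ ^ (-s) * ∑' m : ℤ × ℤ, CubeAux.sn m ^ (-s)) * (N : ℝ) ^ (-(s / 2 - 1))) atTop
        (𝓝 ((1 + δ) ^ (-s) * Zt s -
          (δ ^ (-s) * ∑' m : ℤ × ℤ, CubeAux.sn m ^ (-s)) * 0)) := by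
      apply Tendsto.sub tendsto_const_nhds
      apply Tendsto.const_mul
      exact (tendsto_rpow_neg_atTop (by linarith)).comp tendsto_natCast_atTop_atTop
    rw [mul_zero, sub_zero] at h2
    filter_upwards [h2.eventually_const_lt hδ1, eventually_gt_atTop 0] with N hN1 hN0
    exact hN1.trans_le (Emin_ge_of hs hδ0' (Zt_nonneg s) hK hN0)
  · intro c hc
    have h3 : Tendsto (fun θ : ℝ => θ ^ (-(s / 2)) * Zt s) (𝓝[<] 1)
        (𝓝 ((1 : ℝ) ^ (-(s / 2)) * Zt s)) := by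
      apply tendsto_nhdsWithin_of_tendsto_nhds
      have hc : ContinuousAt (fun θ : ℝ => θ ^ (-(s / 2)) * Zt s) 1 := by
        apply ContinuousAt.mul _ continuousAt_const
        apply ContinuousAt.rpow_const continuousAt_id
        left
        norm_num
      exact hc.tendsto
    rw [Real.one_rpow, one_mul] at h3
    have hpos : ∀ᶠ θ : ℝ in 𝓝[<] 1, 0 < θ :=
      nhdsWithin_le_nhds (lt_mem_nhds one_pos)
    obtain ⟨θ, ⟨hθ1, hθ0⟩, hθ2⟩ :=
      (((h3.eventually_lt_const hc).and hpos).and self_mem_nhdsWithin).exists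
    have hθ2' : θ < 1 := hθ2
    have h2 : Tendsto (fun N : ℕ => (N : ℝ) * (1 - θ) ^ 2) atTop atTop :=
      tendsto_natCast_atTop_atTop.atTop_mul_const (by nlinarith)
    filter_upwards [h2.eventually_ge_atTop (c3 * θ), eventually_gt_atTop 0] with N hN1 hN0
    have h4 := Up.Emin_le hs hθ0 hθ2' hN0 hN1
    rw [← Zt_eq_Zh] at h4
    exact h4.trans_lt hθ1

end Pool.Agent.J4.H95.RS
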