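import Pool.Agent.J4.H95.RS.Defs
import Pool.Agent.J4.H93.RZ.CF

/-!
# Project RS, piece CF2: configurations on the hexagonal torus
-/

set_option autoImplicit false

open MeasureTheory Set

namespace Pool.Agent.J4.H95.RS

open Pool.Agent.TH478.CE Pool.Agent.J4.H93.NS Pool.Agent.J4.H93.RZ Pool.Agent.J4.H93.RZ.CF

theorem isConf (N : ℕ) (hN : 0 < N) (x : Fin N → P)
    (hx : ∀ i j : Fin N, i ≠ j → ∀ m : ℤ × ℤ, x i - x j + hexPt m ≠ 0) :
    IsConf (ba N) (bb N) N (fun j => √(N : ℝ) • x j) := by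
  have hN' : (0 : ℝ) < N := by exact_mod_cast hN
  have hs : √(N : ℝ) ≠ 0 := by positivity
  refine ⟨hN, ?_, (covol_eq N).symm⟩
  intro j k m h
  rw [latPt_eq, ← smul_sub, ← smul_add, smul_eq_zero, or_iff_right hs] at h
  by_cases hjk : j = k
  · refine ⟨hjk, ?_⟩
    by_contra hm
    apply hex_ne hm
    rw [hjk] at h
    simpa using h
  · exact absurd h (hx j k hjk m)

lemma Zt_eq (hS : S_SUM) {s : ℝ} (hs : 2 < s) : Ls s 0 = Zt s := by
  have hF : Summable (fun m : ℤ × ℤ => ‖(0 : P) + hexPt m‖ ^ (-s)) := hS s hs 0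
  have h1 := tsum_ne_zero hF
  have h0 : ‖(0 : P) + hexPt 0‖ ^ (-s) = 0 := by
    rw [hex_zero, add_zero, norm_zero, Real.zero_rpow (by linarith)]
  rw [h0, sub_zero] at h1
  unfold Ls Zt
  rw [← h1]
  refine tsum_congr (fun m => ?_)
  rw [zero_add]

lemma Zt_nonneg (s : ℝ) : 0 ≤ Zt s := tsum_nonneg (fun m => Real.rpow_nonneg (norm_nonneg _) _)

lemma Ls_nonneg (s : ℝ) (z : P) : 0 ≤ Ls s z := tsum_nonneg (fun m => Real.rpow_nonneg (norm_nonneg _) _)

lemma Sr_nonneg {ι : Type} [Fintype ι] [DecidableEq ι] (s : ℝ) (x : ι → P) : 0 ≤ Sr s x := by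
  unfold Sr
  refine Finset.sum_nonneg (fun i _ => Finset.sum_nonneg (fun j _ => ?_))
  split_ifs
  · exact le_rfl
  · exact Ls_nonneg s _

lemma sum_Ls (hS : S_SUM) {s : ℝ} (hs : 2 < s) {N : ℕ} (x : Fin N → P) :
    ∑ j : Fin N, ∑ k : Fin N, Ls s (x j - x k) = Sr s x + N * Zt s := by
  have h3 : ∀ j k : Fin N, Ls s (x j - x k) =
      (if j = k then 0 else Ls s (x j - x k)) + (if j = k then Zt s else 0) := by
    intro j k
    by_cases hjk : j = k
    · subst hjk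
      rw [sub_self, Zt_eq hS hs]
      simp
    · simp [hjk]
  unfold Sr
  rw [Finset.sum_congr rfl (fun j _ => Finset.sum_congr rfl (fun k _ => h3 j k))]
  simp only [Finset.sum_add_distrib, Finset.sum_ite_eq, Finset.mem_univ, if_true, Finset.sum_const,
    Finset.card_univ, Fintype.card_fin, nsmul_eq_mul]

theorem energy_eq (hS : S_SUM) {s : ℝ} (hs : 2 < s) (N : ℕ) (hN : 0 < N) (x : Fin N → P) :
    energy (fun r => ENNReal.ofReal (r ^ (-s))) (ba N) (bb N) N (fun j => √(N : ℝ) • x j) =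
      ENNReal.ofReal ((Sr s x + N * Zt s) / (N * (N : ℝ) ^ (s / 2))) := by
  classical
  have hN' : (0 : ℝ) < N := by exact_mod_cast hN
  have hc : (0 : ℝ) < √(N : ℝ) := by positivity
  have hcs : √(N : ℝ) ^ (-s) = ((N : ℝ) ^ (s / 2))⁻¹ := by
    rw [Real.sqrt_eq_rpow, ← Real.rpow_mul hN'.le, ← Real.rpow_neg hN'.le]
    congr 1
    ring
  have hterm : ∀ (j k : Fin N) (m : ℤ × ℤ),
      (if √(N : ℝ) • x j - √(N : ℝ) • x k + latPt (ba N) (bb N) m = 0 then (0 : ENNReal) else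
        ENNReal.ofReal (‖√(N : ℝ) • x j - √(N : ℝ) • x k + latPt (ba N) (bb N) m‖ ^ (-s))) =
      ENNReal.ofReal (√(N : ℝ) ^ (-s) * ‖x j - x k + hexPt m‖ ^ (-s)) := by
    intro j k m
    have hz : √(N : ℝ) • x j - √(N : ℝ) • x k + latPt (ba N) (bb N) m =
        √(N : ℝ) • (x j - x k + hexPt m) := by
      rw [latPt_eq, smul_add, smul_sub]
    rw [hz]
    by_cases h0 : x j - x k + hexPt m = 0
    · rw [if_pos (by rw [h0, smul_zero]), h0, norm_zero, Real.zero_rpow (by linarith), mul_zero,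
        ENNReal.ofReal_zero]
    · rw [if_neg (by
        rw [smul_eq_zero, or_iff_right hc.ne']
        exact h0), norm_smul, Real.norm_of_nonneg hc.le, Real.mul_rpow hc.le (norm_nonneg _)]
  have hts : ∀ j k : Fin N, ∑' m : ℤ × ℤ,
      (if √(N : ℝ) • x j - √(N : ℝ) • x k + latPt (ba N) (bb N) m = 0 then (0 : ENNReal) else
        ENNReal.ofReal (‖√(N : ℝ) • x j - √(N : ℝ) • x k + latPt (ba N) (bb N) m‖ ^ (-s))) =
      ENNReal.ofReal (√(N : ℝ) ^ (-s) * Ls s (x j - x k)) := by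
    intro j k
    rw [tsum_congr (hterm j k), ← ENNReal.ofReal_tsum_of_nonneg (fun m => by positivity)
      ((hS s hs (x j - x k)).mul_left _), tsum_mul_left]
    rfl
  have hL : ∀ j k : Fin N, 0 ≤ √(N : ℝ) ^ (-s) * Ls s (x j - x k) := fun j k =>
    mul_nonneg (by positivity) (Ls_nonneg s _)
  have hsum : (∑ j : Fin N, ∑ k : Fin N, ENNReal.ofReal (√(N : ℝ) ^ (-s) * Ls s (x j - x k))) =
      ENNReal.ofReal (√(N : ℝ) ^ (-s) * (Sr s x + N * Zt s)) := by
    rw [← sum_Ls hS hs x, Finset.mul_sum, ENNReal.ofReal_sum_of_nonneg (fun j _ => by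
      rw [Finset.mul_sum]
      exact Finset.sum_nonneg (fun k _ => hL j k))]
    refine Finset.sum_congr rfl (fun j _ => ?_)
    rw [Finset.mul_sum, ENNReal.ofReal_sum_of_nonneg (fun k _ => hL j k)]
  unfold energy
  rw [Finset.sum_congr rfl (fun j _ => Finset.sum_congr rfl (fun k _ => hts j k)), hsum,
    ← ENNReal.ofReal_natCast, ← ENNReal.ofReal_inv_of_pos hN', ← ENNReal.ofReal_mul (by positivity), hcs]
  congr 1
  field_simp

theorem energyHex_eq (hS : S_SUM) {s : ℝ} (hs : 2 < s) :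
    energyHex (fun r => ENNReal.ofReal (r ^ (-s))) = ENNReal.ofReal (Zt s) := by
  unfold energyHex Zt
  rw [ENNReal.ofReal_tsum_of_nonneg (fun m => by positivity)]
  have h := (hS s hs 0).comp_injective (Subtype.val_injective (p := fun m : ℤ × ℤ => m ≠ 0))
  refine h.congr (fun m => ?_)
  simp

theorem t_CF2 (hS : S_SUM) : S_CF2 := by
  intro s hs hst N hN x hx
  have hN' : (0 : ℝ) < N := by exact_mod_cast hN
  have h1 := hst (ba N) (bb N) N (fun j => √(N : ℝ) • x j) (isConf N hN x hx)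
  rw [energy_eq hS hs N hN x, energyHex_eq hS hs] at h1
  have hp : (0 : ℝ) < (N : ℝ) ^ (s / 2) := by positivity
  have h2 : 0 ≤ (Sr s x + N * Zt s) / (N * (N : ℝ) ^ (s / 2)) := by
    have := Sr_nonneg s x
    have := Zt_nonneg s
    positivity
  have h3 := (ENNReal.ofReal_le_ofReal_iff h2).1 h1
  rw [le_div_iff₀ (by positivity)] at h3
  calc (N : ℝ) * ((N : ℝ) ^ (s / 2) * Zt s) = Zt s * (N * (N : ℝ) ^ (s / 2)) := by ring
    _ ≤ _ := h3

end Pool.Agent.J4.H95.RS
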