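import Pool.Agent.J4.H93.RZ.Defs
import Pool.Agent.J4.H93.NS.Cfg

/-!
# Project RS: exact optimality of the hexagonal configurations for steep Riesz energies: definitions
-/

set_option autoImplicit false

open MeasureTheory Set

namespace Pool.Agent.J4.H95.RS

open Pool.Agent.TH478.CE Pool.Agent.J4.H93.NS Pool.Agent.J4.H93.RZ

/-- the sum `∑_{v ∈ V} |z + v| ^ (-s)` over the hexagonal lattice of covolume `1` -/
noncomputable def Ls (s : ℝ) (z : P) : ℝ := ∑' m : ℤ × ℤ, ‖z + hexPt m‖ ^ (-s)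

/-- the Epstein zeta function `ζ_V(s) = ∑_{v ∈ V \ {0}} |v| ^ (-s)` of the hexagonal lattice of
covolume `1` -/
noncomputable def Zt (s : ℝ) : ℝ := ∑' m : {m : ℤ × ℤ // m ≠ 0}, ‖hexPt m.1‖ ^ (-s)

/-- the sum of `Ls` over the ordered pairs of different points of a configuration -/
noncomputable def Sr {ι : Type} [Fintype ι] [DecidableEq ι] (s : ℝ) (x : ι → P) : ℝ :=
  ∑ i, ∑ j, if i = j then 0 else Ls s (x i - x j)

/-- KER (may use SUM). -/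
def S_KER : Prop := ∀ (s : ℝ), 2 < s → ∀ z : P, (∀ m : ℤ × ℤ, z + hexPt m ≠ 0) →
  Kp s z = Ls s z - 2 * Real.pi / (Real.Gamma (s / 2) * (s - 2))

/-- SUM. (At a point of the lattice the term is `0 ^ (-s) = 0`.) -/
def S_SUM : Prop := ∀ (s : ℝ), 2 < s → ∀ z : P, Summable (fun m : ℤ × ℤ => ‖z + hexPt m‖ ^ (-s))

/-- STA (may use SUM). -/
def S_STA : Prop := ∀ (s : ℝ), 2 < s → ∀ m : ℕ, 0 < m →
  Sr s (star m) + (m : ℝ) ^ 2 * Zt s = (m : ℝ) ^ 2 * ((m : ℝ) ^ s * Zt s)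

/-- the conclusion of BRI, for one `s` -/
def Steep (s : ℝ) : Prop := ∀ (a b : P) (N : ℕ) (x : Fin N → P), IsConf a b N x →
  energyHex (fun r => ENNReal.ofReal (r ^ (-s))) ≤
    energy (fun r => ENNReal.ofReal (r ^ (-s))) a b N x

/-- CF2 (may use SUM). -/
def S_CF2 : Prop := ∀ (s : ℝ), 2 < s → Steep s → ∀ (N : ℕ), 0 < N → ∀ x : Fin N → P,
  (∀ i j : Fin N, i ≠ j → ∀ m : ℤ × ℤ, x i - x j + hexPt m ≠ 0) →
  (N : ℝ) * ((N : ℝ) ^ (s / 2) * Zt s) ≤ Sr s x + N * Zt s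

end Pool.Agent.J4.H95.RS
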