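import Pool.Agent.J4.H95.RS.Defs
import Pool.Agent.J4.H93.RZ.As

/-!
# Project RS, piece KER: the kernel and the lattice sum
-/

set_option autoImplicit false

open MeasureTheory Set

namespace Pool.Agent.J4.H95.RS

open Pool.Agent.TH478.CE Pool.Agent.J4.H93.NS Pool.Agent.J4.H93.RZ

namespace KerAux

/-- the Mellin integral of a Gaussian over `(0, ∞)` -/
theorem mellin {s : ℝ} (hs : 0 < s) {ρ : ℝ} (hρ : 0 < ρ) :
    IntegrableOn (fun u : ℝ => u ^ (s / 2 - 1) * Real.exp (-(u * ρ ^ 2))) (Ioi 0) ∧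
    ∫ u in Ioi (0 : ℝ), u ^ (s / 2 - 1) * Real.exp (-(u * ρ ^ 2)) =
      Real.Gamma (s / 2) * ρ ^ (-s) := by
  have hρ2 : 0 < ρ ^ 2 := by positivity
  constructor
  · have h := integrableOn_rpow_mul_exp_neg_mul_rpow (s := s / 2 - 1) (p := 1) (b := ρ ^ 2)
      (by linarith) one_pos hρ2
    refine h.congr_fun (fun u _ => ?_) measurableSet_Ioi
    simp only [Real.rpow_one]
    congr 2
    ring
  · have h := Real.integral_rpow_mul_exp_neg_mul_Ioi (a := s / 2) (r := ρ ^ 2) (by positivity) hρ2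
    have e : ∀ u : ℝ, Real.exp (-(u * ρ ^ 2)) = Real.exp (-(ρ ^ 2 * u)) := fun u => by
      rw [mul_comm]
    simp only [e]
    rw [h, mul_comm]
    congr 1
    rw [one_div, Real.inv_rpow hρ2.le, ← Real.rpow_neg hρ2.le, ← Real.rpow_natCast ρ 2,
      ← Real.rpow_mul hρ.le]
    congr 1
    push_cast
    ring

theorem full (hS : S_SUM) (s : ℝ) (hs : 2 < s) (z : P) (hz : ∀ m : ℤ × ℤ, z + hexPt m ≠ 0) :
    ∫ u in Ioi (0 : ℝ), u ^ (s / 2 - 1) * Th2 u z = Real.Gamma (s / 2) * Ls s z := by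
  have hρ : ∀ m : ℤ × ℤ, 0 < ‖z + hexPt m‖ := fun m => norm_pos_iff.2 (hz m)
  have hs0 : 0 < s := by linarith
  obtain ⟨F, hF⟩ : ∃ F : ℤ × ℤ → ℝ → ℝ, F = fun m u =>
    u ^ (s / 2 - 1) * Real.exp (-(u * ‖z + hexPt m‖ ^ 2)) := ⟨_, rfl⟩
  have hnn : ∀ m, ∀ u ∈ Ioi (0 : ℝ), 0 ≤ F m u := by
    intro m u hu
    have : (0 : ℝ) < u := hu
    rw [hF]
    positivity
  have hint : ∀ m, Integrable (F m) (volume.restrict (Ioi 0)) := fun m => by
    rw [hF]
    exact (mellin hs0 (hρ m)).1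
  have hval : ∀ m, ∫ u in Ioi (0 : ℝ), F m u = Real.Gamma (s / 2) * ‖z + hexPt m‖ ^ (-s) :=
    fun m => by
      rw [hF]
      exact (mellin hs0 (hρ m)).2
  have hnorm : ∀ m, ∫ u in Ioi (0 : ℝ), ‖F m u‖ = ∫ u in Ioi (0 : ℝ), F m u := by
    intro m
    apply setIntegral_congr_fun measurableSet_Ioi
    intro u hu
    exact Real.norm_of_nonneg (hnn m u hu)
  have hsum : Summable fun m => ∫ u in Ioi (0 : ℝ), ‖F m u‖ := by
    refine ((hS s hs z).mul_left (Real.Gamma (s / 2))).congr fun m => ?_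
    rw [hnorm m, hval m]
  have hhas := hasSum_integral_of_summable_integral_norm hint hsum
  have hTh : ∀ u : ℝ, ∑' m, F m u = u ^ (s / 2 - 1) * Th2 u z := by
    intro u
    rw [hF]
    unfold Th2
    rw [← tsum_mul_left]
  simp only [hTh] at hhas
  rw [← hhas.tsum_eq]
  unfold Ls
  rw [← tsum_mul_left]
  exact tsum_congr hval

theorem pole {s : ℝ} (hs : 2 < s) :
    IntegrableOn (fun u : ℝ => u ^ (s / 2 - 1) * (Real.pi / u)) (Ioo 0 1) ∧
    ∫ u in Ioo (0 : ℝ) 1, u ^ (s / 2 - 1) * (Real.pi / u) = 2 * Real.pi / (s - 2) := by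
  have e : ∀ u ∈ Ioo (0 : ℝ) 1, Real.pi * u ^ (s / 2 - 2) = u ^ (s / 2 - 1) * (Real.pi / u) := by
    intro u hu
    have hu0 : 0 < u := hu.1
    have : s / 2 - 2 = (s / 2 - 1) - 1 := by ring
    rw [this, Real.rpow_sub_one hu0.ne' (s / 2 - 1)]
    ring
  have h1 : IntervalIntegrable (fun u : ℝ => u ^ (s / 2 - 2)) volume 0 1 :=
    intervalIntegral.intervalIntegrable_rpow' (by linarith)
  have h2 : IntegrableOn (fun u : ℝ => u ^ (s / 2 - 2)) (Ioo 0 1) :=
    ((intervalIntegrable_iff_integrableOn_Ioo_of_le zero_le_one).1 h1)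
  constructor
  · have h3 : IntegrableOn (fun u : ℝ => Real.pi * u ^ (s / 2 - 2)) (Ioo 0 1) := h2.const_mul Real.pi
    exact h3.congr_fun e measurableSet_Ioo
  · rw [← setIntegral_congr_fun measurableSet_Ioo e, integral_const_mul,
      ← integral_Ioc_eq_integral_Ioo, ← intervalIntegral.integral_of_le zero_le_one,
      integral_rpow (Or.inl (by linarith))]
    have h3 : s / 2 - 2 + 1 = (s - 2) / 2 := by ring
    have h4 : (s - 2) / 2 ≠ 0 := by
      have : 0 < (s - 2) / 2 := by linarith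
      exact this.ne'
    rw [h3, Real.one_rpow, Real.zero_rpow h4, sub_zero]
    have h5 : s - 2 ≠ 0 := by
      intro h
      apply h4
      rw [h, zero_div]
    field_simp

end KerAux

open KerAux in
theorem t_KER (hS : S_SUM) : S_KER := by
  intro s hs z hz
  have hs0 : 0 < s := by linarith
  have hG : 0 < Real.Gamma (s / 2) := Real.Gamma_pos_of_pos (by positivity)
  obtain ⟨p1, p2⟩ := pole hs
  have k1 := (As.kern_two s hs0 z).1
  have k2 := (kern_one s hs0 z hz).1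
  have e1 : (fun u : ℝ => u ^ (s / 2 - 1) * (Th2 u z - Real.pi / u)) = fun u : ℝ =>
      u ^ (s / 2 - 1) * Th2 u z - u ^ (s / 2 - 1) * (Real.pi / u) := by
    funext u
    ring
  have k3 : IntegrableOn (fun u : ℝ => u ^ (s / 2 - 1) * Th2 u z) (Ioo 0 1) := by
    have h := k1.add p1
    refine h.congr_fun (fun u _ => ?_) measurableSet_Ioo
    simp only [Pi.add_apply]
    ring
  rw [As.Kp_eq s hs0 z hz, e1, integral_sub k3 p1, p2]
  have k4 : (∫ u in Ioi (0 : ℝ), u ^ (s / 2 - 1) * Th2 u z) =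
      (∫ u in Ioo (0 : ℝ) 1, u ^ (s / 2 - 1) * Th2 u z) +
        ∫ u in Ioi (1 : ℝ), u ^ (s / 2 - 1) * Th2 u z := by
    rw [← integral_Ioc_eq_integral_Ioo, ← Ioc_union_Ioi_eq_Ioi (zero_le_one (α := ℝ))]
    refine setIntegral_union (Ioc_disjoint_Ioi le_rfl) measurableSet_Ioi ?_ k2
    rw [integrableOn_Ioc_iff_integrableOn_Ioo]
    exact k3
  rw [full hS s hs z hz] at k4
  have k5 : (∫ u in Ioo (0 : ℝ) 1, u ^ (s / 2 - 1) * Th2 u z) - 2 * Real.pi / (s - 2) +
      ∫ u in Ioi (1 : ℝ), u ^ (s / 2 - 1) * Th2 u z =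
      Real.Gamma (s / 2) * Ls s z - 2 * Real.pi / (s - 2) := by
    rw [k4]
    ring
  rw [k5]
  have h5 : s - 2 ≠ 0 := by
    have : 0 < s - 2 := by linarith
    exact this.ne'
  field_simp

end Pool.Agent.J4.H95.RS
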