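import Pool.Agent.J4.H95.RS.Asm

/-!
# Project RS: the limit of the minimal periodic energies
-/

set_option autoImplicit false

open MeasureTheory Set Filter Topology

namespace Pool.Agent.J4.H95.RS

open Pool.Agent.TH478.CE Pool.Agent.J4.H93.NS Pool.Agent.J4.H93.RZ

/-- the minimal periodic Riesz `s`-energy of `N` points, the infimum over all configurations of `N` points
which are pairwise distinct modulo `V` -/
noncomputable def Emn (s : ℝ) (N : ℕ) : ℝ := sInf {E | ∃ x : Fin N → P, Dist x ∧ E = Ep s x}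

namespace Lim

/-- an upper bound for the parts of the configuration `star m` -/
def Upb (s : ℝ) : Prop := ∀ (m : ℕ), 0 < m → ∀ (N : ℕ) (φ : Fin N → Fin m × Fin m),
  Function.Injective φ → Sr s (fun i => star m (φ i)) ≤ N * ((m : ℝ) ^ s * Zt s)

theorem kap_pos {s : ℝ} (hs : 2 < s) : 0 < kap s := by
  have : 0 < Real.Gamma (s / 2) := Real.Gamma_pos_of_pos (by linarith)
  have h2 : 0 < s - 2 := by linarith
  unfold kap
  positivity

theorem Zt_nonneg (s : ℝ) : 0 ≤ Zt s := tsum_nonneg fun m => by positivity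

theorem exists_inj {N m : ℕ} (h : N ≤ m ^ 2) : ∃ φ : Fin N → Fin m × Fin m, Function.Injective φ := by
  have h2 : Fintype.card (Fin N) ≤ Fintype.card (Fin m × Fin m) := by
    rw [Fintype.card_prod, Fintype.card_fin, Fintype.card_fin, ← sq]
    exact h
  obtain ⟨e⟩ := Function.Embedding.nonempty_of_card_le h2
  exact ⟨e, e.injective⟩

theorem dist_sub {N m : ℕ} (hm : 0 < m) {φ : Fin N → Fin m × Fin m} (hφ : Function.Injective φ) :
    Dist (fun i => star m (φ i)) := fun i j hij k =>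
  star_ne m hm (φ i) (φ j) (fun h => hij (hφ h)) k

theorem Emn_lower (hK : S_KER) (hC : S_CF2) {s : ℝ} (hs : 2 < s) (hst : Steep s) {N : ℕ}
    (hN : 0 < N) :
    (N : ℝ) * ((N : ℝ) ^ (s / 2) * Zt s) - N * Zt s - N * (N - 1) * kap s ≤ Emn s N := by
  obtain ⟨φ, hφ⟩ := exists_inj (N := N) (m := N) (by nlinarith)
  apply le_csInf
  · exact ⟨_, _, dist_sub hN hφ, rfl⟩
  · rintro E ⟨x, hx, rfl⟩
    exact Asm.Ep_lower hK hC hs hst hN hx

theorem Emn_upper (hK : S_KER) (hC : S_CF2) {s : ℝ} (hs : 2 < s) (hst : Steep s) (hU : Upb s)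
    {N m : ℕ} (hN : 0 < N) (hm : 0 < m) (hNm : N ≤ m ^ 2) :
    Emn s N ≤ N * ((m : ℝ) ^ s * Zt s) := by
  obtain ⟨φ, hφ⟩ := exists_inj hNm
  have hb : BddBelow {E | ∃ x : Fin N → P, Dist x ∧ E = Ep s x} := by
    refine ⟨(N : ℝ) * ((N : ℝ) ^ (s / 2) * Zt s) - N * Zt s - N * (N - 1) * kap s, ?_⟩
    rintro E ⟨x, hx, rfl⟩
    exact Asm.Ep_lower hK hC hs hst hN hx
  have h1 : Emn s N ≤ Ep s (fun i => star m (φ i)) := csInf_le hb ⟨_, dist_sub hm hφ, rfl⟩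
  refine h1.trans ?_
  rw [Asm.Ep_sum hK hs (dist_sub hm hφ), Fintype.card_fin]
  have h2 := hU m hm N φ hφ
  have h3 : (1 : ℝ) ≤ N := by exact_mod_cast hN
  have h4 : 0 ≤ (N : ℝ) * ((N : ℝ) - 1) * kap s :=
    mul_nonneg (mul_nonneg (by linarith) (by linarith)) (kap_pos hs).le
  linarith

/-- `C_{s,2} = ζ_V(s)` -/
theorem lim (hK : S_KER) (hC : S_CF2) {s : ℝ} (hs : 2 < s) (hst : Steep s) (hU : Upb s) :
    Tendsto (fun N : ℕ => Emn s N / (N : ℝ) ^ (1 + s / 2)) atTop (𝓝 (Zt s)) := by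
  have hcast : Tendsto (fun N : ℕ => (N : ℝ)) atTop atTop := tendsto_natCast_atTop_atTop
  -- the lower bound
  have hlow : Tendsto (fun N : ℕ => Zt s - (N : ℝ) ^ (-(s / 2)) * Zt s -
      ((N : ℝ) ^ (-(s / 2 - 1)) - (N : ℝ) ^ (-(s / 2))) * kap s) atTop (𝓝 (Zt s)) := by
    have h1 : Tendsto (fun N : ℕ => (N : ℝ) ^ (-(s / 2))) atTop (𝓝 0) :=
      (tendsto_rpow_neg_atTop (by linarith)).comp hcast
    have h2 : Tendsto (fun N : ℕ => (N : ℝ) ^ (-(s / 2 - 1))) atTop (𝓝 0) :=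
      (tendsto_rpow_neg_atTop (by linarith)).comp hcast
    have h3 := (tendsto_const_nhds (x := Zt s)).sub (h1.mul_const (Zt s))
    have h4 := h3.sub ((h2.sub h1).mul_const (kap s))
    simpa using h4
  -- the upper bound
  have hup : Tendsto (fun N : ℕ => (1 + (N : ℝ) ^ (-(1 / 2 : ℝ))) ^ s * Zt s) atTop (𝓝 (Zt s)) := by
    have h1 : Tendsto (fun N : ℕ => (N : ℝ) ^ (-(1 / 2 : ℝ))) atTop (𝓝 0) :=
      (tendsto_rpow_neg_atTop (by norm_num)).comp hcast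
    have h2 : Tendsto (fun N : ℕ => 1 + (N : ℝ) ^ (-(1 / 2 : ℝ))) atTop (𝓝 1) := by
      simpa using h1.const_add (1 : ℝ)
    have h3 := (h2.rpow_const (p := s) (Or.inl one_ne_zero)).mul_const (Zt s)
    simpa using h3
  refine tendsto_of_tendsto_of_tendsto_of_le_of_le' hlow hup ?_ ?_
  · filter_upwards [eventually_gt_atTop 0] with N hN
    have hN0 : (0 : ℝ) < N := by exact_mod_cast hN
    have hp : (0 : ℝ) < (N : ℝ) ^ (1 + s / 2) := Real.rpow_pos_of_pos hN0 _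
    rw [le_div_iff₀ hp]
    refine le_trans (le_of_eq ?_) (Emn_lower hK hC hs hst hN)
    have e1 : (N : ℝ) ^ (-(s / 2)) * (N : ℝ) ^ (1 + s / 2) = N := by
      rw [← Real.rpow_add hN0]
      have : -(s / 2) + (1 + s / 2) = 1 := by ring
      rw [this, Real.rpow_one]
    have e2 : (N : ℝ) ^ (-(s / 2 - 1)) * (N : ℝ) ^ (1 + s / 2) = N * N := by
      rw [← Real.rpow_add hN0]
      have : -(s / 2 - 1) + (1 + s / 2) = 1 + 1 := by ring
      rw [this, Real.rpow_add hN0, Real.rpow_one]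
    have e3 : (N : ℝ) ^ (1 + s / 2) = N * (N : ℝ) ^ (s / 2) := by
      rw [Real.rpow_add hN0, Real.rpow_one]
    have e4 : (Zt s - (N : ℝ) ^ (-(s / 2)) * Zt s -
        ((N : ℝ) ^ (-(s / 2 - 1)) - (N : ℝ) ^ (-(s / 2))) * kap s) * (N : ℝ) ^ (1 + s / 2) =
        (N : ℝ) ^ (1 + s / 2) * Zt s - ((N : ℝ) ^ (-(s / 2)) * (N : ℝ) ^ (1 + s / 2)) * Zt s -
        ((N : ℝ) ^ (-(s / 2 - 1)) * (N : ℝ) ^ (1 + s / 2) -
          (N : ℝ) ^ (-(s / 2)) * (N : ℝ) ^ (1 + s / 2)) * kap s := by ring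
    rw [e4, e1, e2, e3]
    ring
  · filter_upwards [eventually_gt_atTop 0] with N hN
    have hN0 : (0 : ℝ) < N := by exact_mod_cast hN
    have hp : (0 : ℝ) < (N : ℝ) ^ (1 + s / 2) := Real.rpow_pos_of_pos hN0 _
    rw [div_le_iff₀ hp]
    have hsq : 0 < √(N : ℝ) := Real.sqrt_pos.mpr hN0
    have hm : 0 < ⌈√(N : ℝ)⌉₊ := Nat.ceil_pos.mpr hsq
    have hm1 : √(N : ℝ) ≤ (⌈√(N : ℝ)⌉₊ : ℝ) := Nat.le_ceil _
    have hm2 : (⌈√(N : ℝ)⌉₊ : ℝ) ≤ √(N : ℝ) + 1 := (Nat.ceil_lt_add_one hsq.le).le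
    have hNm : N ≤ ⌈√(N : ℝ)⌉₊ ^ 2 := by
      have : (N : ℝ) ≤ (⌈√(N : ℝ)⌉₊ : ℝ) ^ 2 := by
        calc (N : ℝ) = √(N : ℝ) ^ 2 := (Real.sq_sqrt hN0.le).symm
          _ ≤ _ := pow_le_pow_left₀ hsq.le hm1 2
      exact_mod_cast this
    refine (Emn_upper hK hC hs hst hU hN hm hNm).trans ?_
    have h1 : (⌈√(N : ℝ)⌉₊ : ℝ) ^ s ≤ (1 + (N : ℝ) ^ (-(1 / 2 : ℝ))) ^ s * (N : ℝ) ^ (s / 2) := by
      have h2 : √(N : ℝ) + 1 = (1 + (N : ℝ) ^ (-(1 / 2 : ℝ))) * (N : ℝ) ^ (1 / 2 : ℝ) := by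
        rw [add_mul, one_mul, ← Real.rpow_add hN0, Real.sqrt_eq_rpow]
        norm_num
      have h3 : (N : ℝ) ^ (s / 2) = ((N : ℝ) ^ (1 / 2 : ℝ)) ^ s := by
        rw [← Real.rpow_mul hN0.le]
        congr 1
        ring
      rw [h3, ← Real.mul_rpow (by positivity) (by positivity), ← h2]
      exact Real.rpow_le_rpow (by positivity) hm2 (by linarith)
    have e3 : (N : ℝ) ^ (1 + s / 2) = N * (N : ℝ) ^ (s / 2) := by
      rw [Real.rpow_add hN0, Real.rpow_one]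
    calc (N : ℝ) * ((⌈√(N : ℝ)⌉₊ : ℝ) ^ s * Zt s)
        ≤ N * (((1 + (N : ℝ) ^ (-(1 / 2 : ℝ))) ^ s * (N : ℝ) ^ (s / 2)) * Zt s) := by
          apply mul_le_mul_of_nonneg_left _ hN0.le
          exact mul_le_mul_of_nonneg_right h1 (Zt_nonneg s)
      _ = (1 + (N : ℝ) ^ (-(1 / 2 : ℝ))) ^ s * Zt s * (N : ℝ) ^ (1 + s / 2) := by
          rw [e3]
          ring

end Lim

end Pool.Agent.J4.H95.RS
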