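import Pool.Agent.J4.H95.RS.Defs
import Pool.Agent.J4.H93.RZ.Sc

/-!
# Project RS, piece STA: the Riesz energy of the configuration `(1/m) V`
-/

set_option autoImplicit false

open MeasureTheory Set

namespace Pool.Agent.J4.H95.RS

open Pool.Agent.TH478.CE Pool.Agent.J4.H93.NS Pool.Agent.J4.H93.RZ

namespace StaAux

theorem hexPt_zero : hexPt (0 : ℤ × ℤ) = 0 := by
  have h := ScAux.hexPt_norm (0 : ℤ × ℤ)
  have h0 : qf (0 : ℤ × ℤ) = 0 := by
    unfold qf
    simp
  rw [h0, mul_zero] at h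
  exact norm_eq_zero.1 (pow_eq_zero_iff (two_ne_zero)|>.1 h)

theorem Ls_zero {s : ℝ} (hs : 2 < s) : Ls s 0 = Zt s := by
  unfold Ls Zt
  have h1 : ∀ m : ℤ × ℤ, ‖(0 : P) + hexPt m‖ ^ (-s) = ‖hexPt m‖ ^ (-s) := by
    intro m
    rw [zero_add]
  rw [tsum_congr h1]
  symm
  refine tsum_subtype_eq_of_support_subset (s := {m : ℤ × ℤ | m ≠ 0})
    (f := fun m : ℤ × ℤ => ‖hexPt m‖ ^ (-s)) ?_
  intro m hm h0
  apply hm
  show ‖hexPt m‖ ^ (-s) = 0
  rw [h0, hexPt_zero, norm_zero, Real.zero_rpow (by linarith)]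

theorem row (hS : S_SUM) {s : ℝ} (hs : 2 < s) (m : ℕ) [NeZero m] (i : Fin m × Fin m) :
    ∑ j : Fin m × Fin m, Ls s (star m i - star m j) = (m : ℝ) ^ s * Zt s := by
  have hm : (0 : ℝ) < (m : ℝ) := Nat.cast_pos.2 (Nat.pos_of_neZero m)
  have hS0 : Summable (fun p : ℤ × ℤ => ‖hexPt p‖ ^ (-s)) := by
    have h := hS s hs 0
    simpa only [zero_add] using h
  have hS' : Summable (fun p : (Fin m × Fin m) × (ℤ × ℤ) =>
      ‖hexPt (ScAux.Ph m (ScAux.ci i) p)‖ ^ (-s)) :=
    (ScAux.Ph m (ScAux.ci i)).summable_iff.2 hS0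
  have h1 : Ls s 0 = ∑' p : (Fin m × Fin m) × (ℤ × ℤ),
      ‖hexPt (ScAux.Ph m (ScAux.ci i) p)‖ ^ (-s) := by
    unfold Ls
    rw [← (ScAux.Ph m (ScAux.ci i)).tsum_eq]
    exact tsum_congr fun p => by rw [zero_add]
  rw [← Ls_zero hs, h1, Summable.tsum_prod hS', tsum_fintype, Finset.mul_sum]
  refine Finset.sum_congr rfl fun j _ => ?_
  unfold Ls
  rw [← tsum_mul_left]
  refine tsum_congr fun k => ?_
  rw [ScAux.star_diff, norm_smul, Real.norm_eq_abs, abs_of_pos (by positivity),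
    Real.mul_rpow (by positivity) (norm_nonneg _), Real.rpow_neg (by positivity),
    Real.div_rpow (by positivity) hm.le, Real.one_rpow, one_div, inv_inv]

end StaAux

open StaAux

theorem t_STA (hS : S_SUM) : S_STA := by
  intro s hs m hm
  have : NeZero m := ⟨hm.ne'⟩
  have key : ∀ i : Fin m × Fin m,
      (∑ j, if i = j then 0 else Ls s (star m i - star m j)) = (m : ℝ) ^ s * Zt s - Zt s := by
    intro i
    have h1 : ∀ j, (if i = j then 0 else Ls s (star m i - star m j)) =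
        Ls s (star m i - star m j) - (if i = j then Zt s else 0) := by
      intro j
      by_cases h : i = j
      · subst h
        rw [if_pos rfl, if_pos rfl, sub_self, Ls_zero hs, sub_self]
      · rw [if_neg h, if_neg h, sub_zero]
    rw [Finset.sum_congr rfl fun j _ => h1 j, Finset.sum_sub_distrib, row hS hs m i,
      Finset.sum_ite_eq, if_pos (Finset.mem_univ _)]
  unfold Sr
  rw [Finset.sum_congr rfl fun i _ => key i, Finset.sum_const, Finset.card_univ,
    Fintype.card_prod, Fintype.card_fin, nsmul_eq_mul]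
  push_cast
  ring

end Pool.Agent.J4.H95.RS
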