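import Pool.Agent.J4.H95.RS.Defs
import Pool.Agent.J4.H93.RZ.K1

/-!
# Project RS, piece SUM: summability of the inverse powers of the distances to the lattice
-/

set_option autoImplicit false

open MeasureTheory Set

namespace Pool.Agent.J4.H95.RS

open Pool.Agent.TH478.CE Pool.Agent.J4.H93.NS Pool.Agent.J4.H93.RZ

namespace SumAux

/-- sup norm of an integer vector -/
def sn (m : ℤ × ℤ) : ℝ := max |(m.1 : ℝ)| |(m.2 : ℝ)|

theorem sn_nonneg (m : ℤ × ℤ) : 0 ≤ sn m := le_max_of_le_left (abs_nonneg _)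

theorem summable_sn {s : ℝ} (hs : 2 < s) : Summable (fun m : ℤ × ℤ => sn m ^ (-s)) := by
  have h := EisensteinSeries.summable_one_div_norm_rpow hs
  have h2 := h.comp_injective (finTwoArrowEquiv ℤ).symm.injective
  refine h2.congr (fun m => ?_)
  simp only [Function.comp]
  congr 1
  unfold sn
  rw [EisensteinSeries.norm_eq_max_natAbs]
  simp [finTwoArrowEquiv, Nat.cast_natAbs]

theorem one_le_c3 : 1 ≤ c3 := by
  unfold c3
  rw [le_div_iff₀ (by positivity), one_mul]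
  apply Real.sqrt_le_iff.2
  norm_num

theorem sn_le (m : ℤ × ℤ) : 1 / 2 * sn m ≤ ‖hexPt m‖ := by
  have h2 : (1 / 2 * sn m) ^ 2 ≤ ‖hexPt m‖ ^ 2 := by
    rw [K1.norm_hexPt_sq]
    have h3 := one_le_c3
    have h4 : (1 / 2 * sn m) ^ 2 ≤ qf m := by
      unfold sn qf
      rcases max_choice |(m.1 : ℝ)| |(m.2 : ℝ)| with h | h
      · rw [h, mul_pow, sq_abs]
        nlinarith [sq_nonneg ((m.1 : ℝ) + 2 * m.2), sq_nonneg (m.1 : ℝ)]
      · rw [h, mul_pow, sq_abs]
        nlinarith [sq_nonneg (2 * (m.1 : ℝ) + m.2), sq_nonneg (m.2 : ℝ)]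
    have h5 := qf_nonneg m
    have h6 : qf m ≤ c3 * qf m := by nlinarith
    linarith
  exact le_of_sq_le_sq h2 (norm_nonneg _)

theorem sn_pos {m : ℤ × ℤ} (hm : 0 < ‖hexPt m‖) : 0 < sn m := by
  rcases (sn_nonneg m).lt_or_eq with h | h
  · exact h
  · exfalso
    have h1 : |(m.1 : ℝ)| ≤ 0 := by rw [h]; exact le_max_left _ _
    have h2 : |(m.2 : ℝ)| ≤ 0 := by rw [h]; exact le_max_right _ _
    have h3 : (m.1 : ℝ) = 0 := abs_eq_zero.1 (le_antisymm h1 (abs_nonneg _))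
    have h4 : (m.2 : ℝ) = 0 := abs_eq_zero.1 (le_antisymm h2 (abs_nonneg _))
    have h5 := K1.norm_hexPt_sq m
    have h6 : qf m = 0 := by unfold qf; rw [h3, h4]; ring
    rw [h6, mul_zero] at h5
    have : 0 < ‖hexPt m‖ ^ 2 := by positivity
    linarith

end SumAux

open SumAux in
theorem t_SUM : S_SUM := by
  intro s hs z
  have h1 := (summable_sn hs).mul_left ((1 / 4 : ℝ) ^ (-s))
  refine Summable.of_norm_bounded_eventually h1 ?_
  have h2 := (K1.summable_shift (a := 1) (by norm_num) 0).tendsto_cofinite_zero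
  have h3 := h2.eventually (gt_mem_nhds (Real.exp_pos (-(4 * ‖z‖ ^ 2 + 1))))
  filter_upwards [h3] with m hm
  have h4 : 4 * ‖z‖ ^ 2 + 1 < ‖hexPt m‖ ^ 2 := by
    have := Real.exp_lt_exp.1 hm
    rw [zero_add] at this
    linarith
  have h5 : 2 * ‖z‖ ≤ ‖hexPt m‖ := by
    apply le_of_sq_le_sq _ (norm_nonneg _)
    rw [mul_pow]
    linarith
  have h0 : 0 < ‖hexPt m‖ := by
    rcases (norm_nonneg (hexPt m)).lt_or_eq with h | h
    · exact h
    · exfalso
      rw [← h] at h4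
      have := sq_nonneg ‖z‖
      norm_num at h4
      linarith
  have h6 : ‖hexPt m‖ / 2 ≤ ‖z + hexPt m‖ := by
    have h7 : ‖hexPt m‖ ≤ ‖z + hexPt m‖ + ‖z‖ := by
      calc ‖hexPt m‖ = ‖(z + hexPt m) - z‖ := by congr 1; abel
        _ ≤ _ := norm_sub_le _ _
    linarith
  have h8 := sn_le m
  have h9 := sn_pos h0
  have h10 : 1 / 4 * sn m ≤ ‖z + hexPt m‖ := by linarith
  rw [Real.norm_of_nonneg (by positivity), ← Real.mul_rpow (by norm_num) h9.le]
  exact Real.rpow_le_rpow_of_nonpos (by positivity) h10 (by linarith)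

end Pool.Agent.J4.H95.RS
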