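import Pool.Agent.J4.H95.RS.Asm

/-!
# Project RS: the minimisers, and the limit of the minimal energies
-/

set_option autoImplicit false

open MeasureTheory Set Filter Topology

namespace Pool.Agent.J4.H95.RS

open Pool.Agent.TH478.CE Pool.Agent.J4.H93.NS Pool.Agent.J4.H93.RZ Bri

/-- The union of the translates `x j + V`, as a subset of the complex plane. -/
def pts {ι : Type} (x : ι → P) : Set ℂ := {y | ∃ (j : ι) (k : ℤ × ℤ), y = tc (x j + hexPt k)}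

/-- `C` is the image of the lattice `(1/m) V` by a rotation and a translation. -/
def IsHexM (m : ℕ) (C : Set ℂ) : Prop :=
  ∃ c w : ℂ, ‖w‖ = 1 ∧ C = {y | ∃ k : ℤ × ℤ, y = c + w * (tc (hexPt k) / m)}

namespace Uniq

theorem tc_smul (r : ℝ) (x : P) : tc (r • x) = r * tc x := by
  apply Complex.ext <;> simp [tc]

theorem sqrt_sq' (m : ℕ) : √(((m ^ 2 : ℕ) : ℝ)) = m := by
  push_cast
  exact Real.sqrt_sq (Nat.cast_nonneg m)

theorem pts_of_isHex {m : ℕ} (hm : 0 < m) (x : Fin (m ^ 2) → P)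
    (h : Pool.Agent.J4.H83.SG.IsHex (Pool.Agent.J4.H83.SG.points (tc (CF.ba (m ^ 2)))
      (tc (CF.bb (m ^ 2))) (fun j => tc (√(((m ^ 2 : ℕ) : ℝ)) • x j)))) : IsHexM m (pts x) := by
  have hm' : (m : ℂ) ≠ 0 := by exact_mod_cast hm.ne'
  obtain ⟨c, w, hw, hC⟩ := h
  refine ⟨c / m, w, hw, ?_⟩
  have h1 : ∀ y : ℂ, (∃ j k, y = tc (x j + hexPt k)) ↔
      (m : ℂ) * y ∈ Pool.Agent.J4.H83.SG.points (tc (CF.ba (m ^ 2)))
      (tc (CF.bb (m ^ 2))) (fun j => tc (√(((m ^ 2 : ℕ) : ℝ)) • x j)) := by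
    intro y
    have h2 : ∀ (j : Fin (m ^ 2)) (a b : ℤ), tc (√(((m ^ 2 : ℕ) : ℝ)) • x j) +
        ((a : ℂ) * tc (CF.ba (m ^ 2)) + (b : ℂ) * tc (CF.bb (m ^ 2))) =
        (m : ℂ) * tc (x j + hexPt (a, b)) := by
      intro j a b
      have h3 := tc_lat (CF.ba (m ^ 2)) (CF.bb (m ^ 2)) (a, b)
      simp only at h3
      rw [← h3, CF.latPt_eq, ← tc_add, ← smul_add, tc_smul, sqrt_sq']
      norm_cast
    constructor
    · rintro ⟨j, k, rfl⟩
      exact ⟨j, k.1, k.2, (h2 j k.1 k.2).symm⟩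
    · rintro ⟨j, a, b, hy⟩
      refine ⟨j, (a, b), ?_⟩
      rw [h2] at hy
      exact mul_left_cancel₀ hm' hy
  unfold pts
  ext y
  rw [mem_setOf_eq, h1, hC]
  constructor
  · rintro ⟨a, b, hy⟩
    refine ⟨(a, b), ?_⟩
    have h3 := tc_hex (a, b)
    simp only at h3
    rw [← h3] at hy
    have : y = (m : ℂ) * y / m := by field_simp
    rw [this, hy]
    field_simp
  · rintro ⟨k, hy⟩
    refine ⟨k.1, k.2, ?_⟩
    have h3 := tc_hex k
    rw [← h3, hy]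
    field_simp

end Uniq

end Pool.Agent.J4.H95.RS
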