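import Pool.Agent.J4.H95.RS.Defs
import Pool.Agent.J4.H93.RZ.Sc

/-!
# Project RS, piece UPB (helper46): an upper bound for the energy of parts of `(1/m) V`
-/

set_option autoImplicit false

open MeasureTheory Set

namespace Pool.Agent.J4.H95.RS

open Pool.Agent.TH478.CE Pool.Agent.J4.H93.NS Pool.Agent.J4.H93.RZ

namespace Upb

open Pool.Agent.J4.H93.RZ.ScAux

theorem hexPt_zero : hexPt (0 : ℤ × ℤ) = 0 := by
  have h := hexPt_norm 0
  have h1 : ‖hexPt (0 : ℤ × ℤ)‖ ^ 2 = 0 := by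
    rw [h]
    simp [qf]
  exact norm_eq_zero.1 (pow_eq_zero_iff (by norm_num : (2 : ℕ) ≠ 0) |>.1 h1)

theorem summ (hS : S_SUM) {s : ℝ} (hs : 2 < s) : Summable (fun m : ℤ × ℤ => ‖hexPt m‖ ^ (-s)) := by
  simpa only [zero_add] using hS s hs 0

theorem zt_eq {s : ℝ} (hs : 2 < s) : ∑' m : ℤ × ℤ, ‖hexPt m‖ ^ (-s) = Zt s := by
  unfold Zt
  symm
  refine tsum_subtype_eq_of_support_subset (s := {m : ℤ × ℤ | m ≠ 0})
    (f := fun m : ℤ × ℤ => ‖hexPt m‖ ^ (-s)) ?_
  intro m hm h0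
  apply hm
  have h0' : m = 0 := h0
  subst h0'
  show ‖hexPt 0‖ ^ (-s) = 0
  rw [hexPt_zero, norm_zero, Real.zero_rpow (by linarith)]

theorem Ls_nonneg (s : ℝ) (z : P) : 0 ≤ Ls s z :=
  tsum_nonneg fun _ => Real.rpow_nonneg (norm_nonneg _) _

/-- the sum over all points of the configuration -/
theorem row (hS : S_SUM) {s : ℝ} (hs : 2 < s) (m : ℕ) [NeZero m] (i : Fin m × Fin m) :
    ∑ j : Fin m × Fin m, Ls s (star m i - star m j) = (m : ℝ) ^ s * Zt s := by
  have hm : (0 : ℝ) < (m : ℝ) := Nat.cast_pos.2 (Nat.pos_of_neZero m)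
  have hS1 := summ hS hs
  have hS' : Summable (fun p : (Fin m × Fin m) × (ℤ × ℤ) =>
      ‖hexPt (Ph m (ci i) p)‖ ^ (-s)) := (Ph m (ci i)).summable_iff.2 hS1
  rw [← zt_eq hs, ← (Ph m (ci i)).tsum_eq, Summable.tsum_prod hS', tsum_fintype, Finset.mul_sum]
  refine Finset.sum_congr rfl fun j _ => ?_
  unfold Ls
  rw [← tsum_mul_left]
  refine tsum_congr fun k => ?_
  rw [star_diff, norm_smul, Real.mul_rpow (norm_nonneg _) (norm_nonneg _), Real.norm_of_nonneg
    (by positivity), Real.rpow_neg (by positivity), one_div, Real.inv_rpow hm.le, inv_inv]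

end Upb

open Upb

theorem upb (hS : S_SUM) (s : ℝ) (hs : 2 < s) (m : ℕ) (hm : 0 < m) (N : ℕ)
    (φ : Fin N → Fin m × Fin m) (hφ : Function.Injective φ) :
    Sr s (fun i => star m (φ i)) ≤ N * ((m : ℝ) ^ s * Zt s) := by
  have : NeZero m := ⟨hm.ne'⟩
  have h1 : ∀ i : Fin N, (∑ j, if i = j then 0 else Ls s (star m (φ i) - star m (φ j))) ≤
      (m : ℝ) ^ s * Zt s := by
    intro i
    rw [← row hS hs m (φ i)]
    calc (∑ j, if i = j then 0 else Ls s (star m (φ i) - star m (φ j)))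
        ≤ ∑ j, Ls s (star m (φ i) - star m (φ j)) := by
          refine Finset.sum_le_sum fun j _ => ?_
          split_ifs
          · exact Ls_nonneg _ _
          · exact le_rfl
      _ = ∑ j ∈ Finset.univ.map ⟨φ, hφ⟩, Ls s (star m (φ i) - star m j) := by
          rw [Finset.sum_map]
          rfl
      _ ≤ ∑ j : Fin m × Fin m, Ls s (star m (φ i) - star m j) :=
          Finset.sum_le_sum_of_subset_of_nonneg (Finset.subset_univ _) fun j _ _ => Ls_nonneg _ _
  unfold Sr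
  refine (Finset.sum_le_sum fun i _ => h1 i).trans ?_
  rw [Finset.sum_const, Finset.card_univ, Fintype.card_fin, nsmul_eq_mul]

end Pool.Agent.J4.H95.RS
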