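import Pool.Agent.J4.H95.RS.Bri
import Pool.Agent.J4.H95.RS.Uniq
import Pool.Agent.J4.H95.RS.Lim
import Pool.Agent.J4.H95.RS.SUM
import Pool.Agent.J4.H95.RS.KER
import Pool.Agent.J4.H95.RS.STA
import Pool.Agent.J4.H95.RS.CF2
import Pool.Agent.J4.H95.RS.Upb
import Pool.Agent.J4.H95.RS.CC

/-!
# Project RS: exact optimality of the hexagonal configurations for steep Riesz energies
-/

set_option autoImplicit false

open MeasureTheory Set Filter Topology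

namespace Pool.Agent.J4.H95.RS

open Pool.Agent.TH478.CE Pool.Agent.J4.H93.NS Pool.Agent.J4.H93.RZ Bri

namespace Main

/-- the case of equality -/
theorem energy_of_eq {s : ℝ} (hs : 2 < s) {m : ℕ} (hm : 0 < m) {x : Fin (m ^ 2) → P}
    (hx : Dist x) (h : Ep s x = Ep s (star m)) :
    energy (fun r => ENNReal.ofReal (r ^ (-s))) (CF.ba (m ^ 2)) (CF.bb (m ^ 2)) (m ^ 2)
      (fun j => √(((m ^ 2 : ℕ) : ℝ)) • x j) = energyHex (fun r => ENNReal.ofReal (r ^ (-s))) := by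
  have hm2 : 0 < m ^ 2 := pow_pos hm 2
  have hN : (0 : ℝ) < ((m ^ 2 : ℕ) : ℝ) := by exact_mod_cast hm2
  rw [energy_eq t_SUM hs (m ^ 2) hm2 x, energyHex_eq t_SUM hs]
  congr 1
  have h1 := Asm.Ep_star (t_KER t_SUM) (t_STA t_SUM) hs hm
  rw [← h, Asm.Ep_sum (t_KER t_SUM) hs hx, Fintype.card_fin] at h1
  have hp : (0 : ℝ) < ((m ^ 2 : ℕ) : ℝ) ^ (s / 2) := Real.rpow_pos_of_pos hN _
  rw [div_eq_iff (mul_pos hN hp).ne']
  have h2 : (((m ^ 2 : ℕ) : ℝ)) ^ (s / 2) = (m : ℝ) ^ s := Asm.rpow_sq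
  rw [h2]
  push_cast at h1 ⊢
  linarith

theorem main : ∃ s₀ : ℝ, 2 < s₀ ∧ ∀ s : ℝ, s₀ ≤ s →
    (∀ m : ℕ, 0 < m → Dist (star m) ∧ ∀ x : Fin (m ^ 2) → P, Dist x →
      Ep s (star m) ≤ Ep s x ∧ (Ep s x = Ep s (star m) → IsHexM m (pts x))) ∧
    Tendsto (fun N : ℕ => Emn s N / (N : ℝ) ^ (1 + s / 2)) atTop (𝓝 (Zt s)) ∧
    Tendsto (fun N : ℕ => Emin s N / (N : ℝ) ^ (1 + s / 2)) atTop (𝓝 (Zt s)) := by
  obtain ⟨s₀, h0, h1⟩ := bri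
  refine ⟨s₀, h0, fun s hs => ?_⟩
  have hs2 : 2 < s := lt_of_lt_of_le h0 hs
  have hst : Steep s := fun a b N x hx => (h1 s hs a b N x hx).1
  refine ⟨fun m hm => ⟨fun i j hij k => star_ne m hm i j hij k, fun x hx => ⟨?_, fun h => ?_⟩⟩, ?_,
    tendsto_Emin hs2 hst⟩
  · exact Asm.opt (t_KER t_SUM) (t_STA t_SUM) (t_CF2 t_SUM) hs2 hst hm hx
  · have hm2 : 0 < m ^ 2 := pow_pos hm 2
    exact Uniq.pts_of_isHex hm x ((h1 s hs _ _ _ _ (isConf (m ^ 2) hm2 x hx)).2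
      (energy_of_eq hs2 hm hx h))
  · exact Lim.lim (t_KER t_SUM) (t_CF2 t_SUM) hs2 hst
      (fun m hm N φ hφ => upb t_SUM s hs2 m hm N φ hφ)

end Main

end Pool.Agent.J4.H95.RS
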